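import Mathlib
import Pool.Agent.Helper31.ErgSL2.Closed

set_option autoImplicit false
open MeasureTheory Filter Topology

namespace Pool.Agent.Results.MP_c0d668_an.SL2Actions

/-- The `L¹` pointwise ergodic theorem for closed hyperbolic ball averages, for all probability measure
preserving actions of `SL(2, ℝ)` with spectral gap. -/
theorem result [MeasurableSpace (Matrix.SpecialLinearGroup (Fin 2) ℝ)]
    [BorelSpace (Matrix.SpecialLinearGroup (Fin 2) ℝ)]
    (m : Measure (Matrix.SpecialLinearGroup (Fin 2) ℝ)) [m.IsHaarMeasure]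
    (X : Type*) [MeasurableSpace X] (μ : Measure X) [IsProbabilityMeasure μ]
    [MulAction (Matrix.SpecialLinearGroup (Fin 2) ℝ) X]
    (hmeas : Measurable fun p : Matrix.SpecialLinearGroup (Fin 2) ℝ × X => p.1 • p.2)
    (hmp : ∀ g : Matrix.SpecialLinearGroup (Fin 2) ℝ, MeasurePreserving (fun x : X => g • x) μ μ)
    (hgap : ∃ Q : Set (Matrix.SpecialLinearGroup (Fin 2) ℝ), IsCompact Q ∧ ∃ ε : ℝ, 0 < ε ∧
      ∀ f : X → ℝ, MemLp f 2 μ → ∫ y, f y ∂μ = 0 → eLpNorm f 2 μ = 1 →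
        ∃ g ∈ Q, ENNReal.ofReal ε ≤ eLpNorm (fun y => f (g • y) - f y) 2 μ)
    (f : X → ℝ) (hf : Integrable f μ) :
    ∀ᵐ x ∂μ, Tendsto
      (fun r : ℝ => (m {g : Matrix.SpecialLinearGroup (Fin 2) ℝ |
          dist UpperHalfPlane.I (g • UpperHalfPlane.I) ≤ r}).toReal⁻¹ *
        ∫ g in {g : Matrix.SpecialLinearGroup (Fin 2) ℝ |
          dist UpperHalfPlane.I (g • UpperHalfPlane.I) ≤ r}, f (g • x) ∂m)
      atTop (𝓝 (∫ y, f y ∂μ)) := by
  obtain ⟨Q, hQ, ε, hε, hgap'⟩ := hgap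
  have : MeasurableSMul₂ (Matrix.SpecialLinearGroup (Fin 2) ℝ) X := ⟨hmeas⟩
  have : SMulInvariantMeasure (Matrix.SpecialLinearGroup (Fin 2) ℝ) X μ :=
    ⟨fun c s hs => (hmp c).measure_preimage hs.nullMeasurableSet⟩
  obtain ⟨R₀, hG⟩ := Pool.Agent.Helper31.ErgSL2.gap_of μ hQ hε hgap'
  have hmain := Pool.Agent.Helper31.ErgSL2.conv_final m μ hG hε hf
  have hc : Tendsto (fun r : ℝ => 2 * Real.cosh r) atTop atTop := by
    refine tendsto_atTop_mono (fun r => ?_) tendsto_id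
    have h1 := Real.add_one_le_exp r
    have h2 := Real.exp_pos (-r)
    rw [Real.cosh_eq]
    simp only [id]
    linarith
  filter_upwards [hmain] with x hx
  refine (hx.comp hc).congr' ?_
  filter_upwards [eventually_ge_atTop (0 : ℝ)] with r hr
  rw [Pool.Agent.Helper31.ErgSL2.closed_avg m f x r, if_pos hr]
  rfl

end Pool.Agent.Results.MP_c0d668_an.SL2Actions
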